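import Pool.Agent.TH984.GB.Defs

set_option autoImplicit false

/-! Job 3142 (GB984-EXP): expansion of the determinant. -/

open Matrix

namespace Pool.Agent.TH75.GB

open Pool.Agent.TH984.GB

theorem det_sum {ι : Type} [Fintype ι] [DecidableEq ι] (N A B : Matrix ι ι ℝ) (w : Fin 3 → ℝ) :
    (Matrix.of (fun i => ∑ k : Fin 3, w k • pick N A B k i)).det =
      ∑ f : ι → Fin 3, (∏ i, w (f i)) * (Matrix.of fun i => pick N A B (f i) i).det := by
  have h1 := (Matrix.detRowAlternating (n := ι) (R := ℝ)).toMultilinearMap.map_sum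
    (fun (i : ι) (k : Fin 3) => w k • pick N A B k i)
  have h2 : ∀ f : ι → Fin 3, (Matrix.detRowAlternating (n := ι) (R := ℝ)).toMultilinearMap
      (fun i => w (f i) • pick N A B (f i) i) =
      (∏ i, w (f i)) * (Matrix.of fun i => pick N A B (f i) i).det := by
    intro f
    have h3 := (Matrix.detRowAlternating (n := ι) (R := ℝ)).toMultilinearMap.map_smul_univ
      (fun i => w (f i)) (fun i => pick N A B (f i) i)
    rw [h3, smul_eq_mul]
    rfl
  rw [Finset.sum_congr rfl fun f _ => h2 f] at h1
  exact h1

theorem prod_w {ι : Type} [Fintype ι] [DecidableEq ι] (s t : ℝ) (f : ι → Fin 3) :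
    ∏ i, (![1, s, t] : Fin 3 → ℝ) (f i) = s ^ (Finset.univ.filter fun i => f i = 1).card *
      t ^ (Finset.univ.filter fun i => f i = 2).card := by
  have h : ∀ k : Fin 3, (![1, s, t] : Fin 3 → ℝ) k = (if k = 1 then s else 1) *
      (if k = 2 then t else 1) := by
    intro k
    fin_cases k
    · change (1 : ℝ) = (if (0 : Fin 3) = 1 then s else 1) * (if (0 : Fin 3) = 2 then t else 1)
      rw [if_neg (by decide), if_neg (by decide), mul_one]
    · change s = (if (1 : Fin 3) = 1 then s else 1) * (if (1 : Fin 3) = 2 then t else 1)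
      rw [if_pos rfl, if_neg (by decide), mul_one]
    · change t = (if (2 : Fin 3) = 1 then s else 1) * (if (2 : Fin 3) = 2 then t else 1)
      rw [if_neg (by decide), if_pos rfl, one_mul]
  rw [Finset.prod_congr rfl fun i _ => h (f i), Finset.prod_mul_distrib, Finset.prod_ite,
    Finset.prod_ite, Finset.prod_const_one, Finset.prod_const_one, mul_one, mul_one,
    Finset.prod_const, Finset.prod_const]

theorem t_EXP : Pool.Agent.TH984.GB.S_EXP := by
  intro ι _ _ N A B s t
  have h1 : (N + s • A + t • B) =
      Matrix.of (fun i => ∑ k : Fin 3, (![1, s, t] : Fin 3 → ℝ) k • pick N A B k i) := by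
    ext i j
    rw [Matrix.of_apply, Fin.sum_univ_three]
    change N i j + s * A i j + t * B i j = (1 : ℝ) * N i j + s * A i j + t * B i j
    rw [one_mul]
  rw [h1, det_sum]
  unfold Coef
  simp only [Finset.mul_sum]
  have h2 : ∀ j ∈ Finset.range (Fintype.card ι + 1),
      ∑ l ∈ Finset.range (Fintype.card ι + 1), ∑ f : ι → Fin 3, s ^ j * t ^ l *
        (if (Finset.univ.filter fun i => f i = 1).card = j ∧
          (Finset.univ.filter fun i => f i = 2).card = l then
        (Matrix.of fun i => pick N A B (f i) i).det else 0) =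
      ∑ f : ι → Fin 3, ∑ l ∈ Finset.range (Fintype.card ι + 1), s ^ j * t ^ l *
        (if (Finset.univ.filter fun i => f i = 1).card = j ∧
          (Finset.univ.filter fun i => f i = 2).card = l then
        (Matrix.of fun i => pick N A B (f i) i).det else 0) := fun j _ => Finset.sum_comm
  rw [Finset.sum_congr rfl h2, Finset.sum_comm]
  refine Finset.sum_congr rfl fun f _ => ?_
  rw [prod_w]
  set a := (Finset.univ.filter fun i => f i = 1).card with ha
  set b := (Finset.univ.filter fun i => f i = 2).card with hb
  set d := (Matrix.of fun i => pick N A B (f i) i).det with hd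
  have hab : a < Fintype.card ι + 1 := Nat.lt_succ_of_le (Finset.card_le_univ _)
  have hbb : b < Fintype.card ι + 1 := Nat.lt_succ_of_le (Finset.card_le_univ _)
  rw [Finset.sum_eq_single_of_mem a (Finset.mem_range.2 hab),
    Finset.sum_eq_single_of_mem b (Finset.mem_range.2 hbb)]
  · simp
  · intro l _ hl
    rw [if_neg (fun h => hl h.2.symm), mul_zero]
  · intro j _ hj
    refine Finset.sum_eq_zero fun l _ => ?_
    rw [if_neg (fun h => hj h.1.symm), mul_zero]

end Pool.Agent.TH75.GB
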